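import Pool.Agent.MP_26cd3b_lc.H27.ESys

/-!
From systems of equations `r i * r j + r k = r l` to systems of quadruple equations between
ordered points of a line.
-/

set_option autoImplicit false

namespace Pool.Agent.MP_26cd3b_lc.H38

open Pool.Agent.Shared.H56 Pool.Agent.MP_aca74d_lc.H29 Pool.Agent.MP_26cd3b_lc.H27

/-- the eight operations for one constraint -/
def gops (N : ℕ) (k : Con) (b : ℕ) : List Con :=
  [(k.1, k.2.1, b, b + 1), (N, N, b + 1, b + 2), (0, k.2.2.1, b + 2, b + 3),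
   (N, k.2.2.2, b + 3, b + 4), (N, k.1, b, b + 5), (N, k.2.1, b + 5, b + 6),
   (0, k.2.2.2, b + 6, b + 7), (N, k.2.2.1, b + 7, b + 4)]

/-- the shifted system -/
def ops (N : ℕ) (cs : List Con) : List Con :=
  (N + 1, N + 1, N, 0) :: cs.zipIdx.flatMap fun e => gops N e.1 (N + 2 + 8 * e.2)

lemma ops_bd {N : ℕ} {cs : List Con} (h : Bd N cs) : Bd (N + 2 + 8 * cs.length) (ops N cs) := by
  intro c hc
  rcases List.mem_cons.1 hc with rfl | hc
  · simp only; omega
  · obtain ⟨⟨k, s⟩, he, hc⟩ := List.mem_flatMap.1 hc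
    have h1 := List.mem_zipIdx_iff_getElem?.1 he
    obtain ⟨h2, h3⟩ := List.getElem?_eq_some_iff.1 h1
    have h4 := h k (by simp only at h3; rw [← h3]; exact List.getElem_mem _)
    simp only [gops, List.mem_cons, List.not_mem_nil, or_false] at hc h2
    rcases hc with rfl | rfl | rfl | rfl | rfl | rfl | rfl | rfl <;> simp only <;> omega

lemma ops_sound {N : ℕ} {cs : List Con} {X : ℕ → ℝ} (hu : X (N + 1) ≠ 0) (h : Sat (ops N cs) X) :
    ∃ r : ℕ → ℝ, r 0 = 1 ∧ Sat cs r := by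
  have h0 := h _ List.mem_cons_self
  simp only at h0
  have hD : X 0 - X N ≠ 0 := by
    rw [← h0, add_sub_cancel_right]
    exact mul_ne_zero hu hu
  refine ⟨fun i => (X i - X N) / (X 0 - X N), div_self hD, fun k hk => ?_⟩
  obtain ⟨s, hs, rfl⟩ := List.getElem_of_mem hk
  have h1 : Sat (gops N cs[s] (N + 2 + 8 * s)) X := fun c hc =>
    h c (List.mem_cons_of_mem _ (List.mem_flatMap.2 ⟨(cs[s], s),
      List.mem_zipIdx_iff_getElem?.2 (by simp [hs]), hc⟩))
  simp only [Sat, gops, List.mem_cons, List.not_mem_nil, or_false, forall_eq_or_imp,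
    forall_eq] at h1
  obtain ⟨a1, a2, a3, a4, a5, a6, a7, a8⟩ := h1
  field_simp
  linear_combination a1 + a2 + a3 + a4 - a5 - a6 - a7 - a8

lemma ops_complete {N : ℕ} {cs : List Con} (hN : 0 < N) (hb : Bd N cs) {r : ℕ → ℝ}
    (h0 : r 0 = 1) (h : Sat cs r) : ∃ X : ℕ → ℝ, (∀ v, 1 < X v) ∧ Sat (ops N cs) X ∧
      ∀ c ∈ ops N cs, X c.1 * X c.2.1 < X c.2.2.1 := by
  set c : ℝ := 4 * ∑ i ∈ Finset.range N, |r i| + 6 with hc
  have hs0 : 0 ≤ ∑ i ∈ Finset.range N, |r i| := Finset.sum_nonneg fun i _ => abs_nonneg _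
  have hc6 : 6 ≤ c := by linarith
  let Y : ℕ → ℝ := fun v => if v < N then c + 4 * r v else c
  have hY : ∀ v, 1 < Y v ∧ Y v < 2 * c := by
    intro v
    simp only [Y]
    split_ifs with hv
    · have := Finset.single_le_sum (f := fun i => |r i|) (fun i _ => abs_nonneg _)
        (Finset.mem_range.2 hv)
      have h1 := le_abs_self (r v)
      have h2 := neg_abs_le (r v)
      constructor <;> linarith
    · constructor <;> linarith
  have hYY : ∀ v w, 0 < Y v * Y w ∧ Y v * Y w < 4 * c ^ 2 + 1 := fun v w => by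
    obtain ⟨a1, a2⟩ := hY v
    obtain ⟨a3, a4⟩ := hY w
    constructor <;> nlinarith
  let aux : Con → ℕ → ℝ := fun k m => 4 * c ^ 2 + 1 + [0, Y k.1 * Y k.2.1,
    Y k.1 * Y k.2.1 + Y N * Y N, Y k.1 * Y k.2.1 + Y N * Y N + Y 0 * Y k.2.2.1,
    Y k.1 * Y k.2.1 + Y N * Y N + Y 0 * Y k.2.2.1 + Y N * Y k.2.2.2, Y N * Y k.1,
    Y N * Y k.1 + Y N * Y k.2.1, Y N * Y k.1 + Y N * Y k.2.1 + Y 0 * Y k.2.2.2].getD m 0
  have haux : ∀ k m, 4 * c ^ 2 + 1 ≤ aux k m := by
    intro k m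
    have a1 := (hYY k.1 k.2.1).1
    have a2 := (hYY N N).1
    have a3 := (hYY 0 k.2.2.1).1
    have a4 := (hYY N k.2.2.2).1
    have a5 := (hYY N k.1).1
    have a6 := (hYY N k.2.1).1
    have a7 := (hYY 0 k.2.2.2).1
    simp only [aux, le_add_iff_nonneg_right]
    rcases m with _ | _ | _ | _ | _ | _ | _ | _ | m <;> simp <;> positivity
  let X : ℕ → ℝ := fun v => if v ≤ N then Y v else if v = N + 1 then 2 else
    aux (cs.getD ((v - (N + 2)) / 8) (0, 0, 0, 0)) ((v - (N + 2)) % 8)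
  have hX1 : ∀ v ≤ N, X v = Y v := fun v hv => by simp [X, hv]
  have hXu : X (N + 1) = 2 := by simp [X]
  have hXa : ∀ s m, m < 8 → X (N + 2 + 8 * s + m) = aux (cs.getD s (0, 0, 0, 0)) m := by
    intro s m hm
    simp only [X]
    rw [if_neg (by omega), if_neg (by omega), show (N + 2 + 8 * s + m - (N + 2)) / 8 = s by omega,
      show (N + 2 + 8 * s + m - (N + 2)) % 8 = m by omega]
  have hYN : Y N = c := by simp [Y]
  have key : ∀ q ∈ ops N cs, X q.1 * X q.2.1 + X q.2.2.1 = X q.2.2.2 ∧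
      X q.1 * X q.2.1 < X q.2.2.1 := by
    intro q hq
    rcases List.mem_cons.1 hq with rfl | hq
    · simp only [hXu, hX1 N le_rfl, hX1 0 hN.le, hYN, Y, if_pos hN, h0]
      constructor <;> linarith
    obtain ⟨⟨k, s⟩, he, hq⟩ := List.mem_flatMap.1 hq
    have h1 := List.mem_zipIdx_iff_getElem?.1 he
    have hk : k ∈ cs := List.mem_of_getElem? h1
    have h2 : cs.getD s (0, 0, 0, 0) = k := by
      simp only at h1
      simp [List.getD_eq_getElem?_getD, h1]
    obtain ⟨b1, b2, b3, b4⟩ := hb k hk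
    have hsat := h k hk
    have e0 := hXa s 0 (by omega)
    rw [add_zero] at e0
    have hlt : ∀ v w m, Y v * Y w < aux k m := fun v w m => (hYY v w).2.trans_le (haux k m)
    simp only [gops, List.mem_cons, List.not_mem_nil, or_false] at hq
    rcases hq with rfl | rfl | rfl | rfl | rfl | rfl | rfl | rfl <;>
      simp only [hX1 _ b1.le, hX1 _ b2.le, hX1 _ b3.le, hX1 _ b4.le, hX1 N le_rfl, hX1 0 hN.le,
        e0, hXa s 1 (by omega), hXa s 2 (by omega), hXa s 3 (by omega), hXa s 4 (by omega),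
        hXa s 5 (by omega), hXa s 6 (by omega), hXa s 7 (by omega), h2, hlt, and_true] <;>
      simp only [aux, List.getD_cons_zero, List.getD_cons_succ]
    · ring
    · ring
    · ring
    · ring
    · ring
    · ring
    · ring
    simp only [Y, if_pos b1, if_pos b2, if_pos b3, if_pos b4, if_pos hN, lt_irrefl, if_false, h0]
    linear_combination (-16) * hsat
  refine ⟨X, fun v => ?_, fun q hq => (key q hq).1, fun q hq => (key q hq).2⟩
  simp only [X]
  split_ifs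
  · exact (hY v).1
  · norm_num
  · refine lt_of_lt_of_le ?_ (haux _ _)
    nlinarith

/-- the gadget copying a ratio -/
def copy (x1 x2 y1 y2 m : ℕ) : List Quad :=
  [(x1, m, m + 3, m + 4), (x2, m, m + 2, m + 4), (y1, m + 1, m + 3, m + 4),
   (y2, m + 1, m + 2, m + 4)]

/-- the gadget for one operation -/
def block (k : Con) (B : ℕ) : List Quad :=
  (B + 3, B + 4, B + 5, B + 6) ::
    (copy (11 + 2 * k.1) (11 + 2 * k.1 + 1) B (B + 1) (B + 7) ++
    copy (11 + 2 * k.2.1) (11 + 2 * k.2.1 + 1) (B + 1) (B + 2) (B + 12) ++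
    copy (11 + 2 * k.2.2.1) (11 + 2 * k.2.2.1 + 1) B (B + 3) (B + 17) ++
    copy (11 + 2 * k.2.2.2) (11 + 2 * k.2.2.2 + 1) B (B + 4) (B + 22) ++
    copy (B + 2) (B + 3) (B + 4) (B + 5) (B + 27) ++
    copy (B + 4) (B + 5) (B + 5) (B + 6) (B + 32))

/-- all quadruples -/
def quads (V : ℕ) (os : List Con) (s : ℕ) : List Quad :=
  (os.zipIdx s).flatMap fun e => block e.1 (11 + 2 * V + 37 * e.2)

/-- ordered and bounded quadruples -/
def Ok (n : ℕ) (qs : List Quad) : Prop :=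
  ∀ q ∈ qs, 10 < q.1 ∧ q.1 < q.2.1 ∧ q.2.1 < q.2.2.1 ∧ q.2.2.1 < q.2.2.2 ∧ q.2.2.2 ≤ n

lemma ok_copy {x1 x2 y1 y2 m n : ℕ} (h : 10 < x1 ∧ 10 < x2 ∧ 10 < y1 ∧ 10 < y2 ∧ x1 < m ∧
    x2 < m ∧ y1 < m ∧ y2 < m ∧ m + 4 ≤ n) : Ok n (copy x1 x2 y1 y2 m) := by
  simp only [Ok, copy, List.mem_cons, List.not_mem_nil, or_false, forall_eq_or_imp, forall_eq]
  omega

lemma Ok.append {n : ℕ} {a b : List Quad} (ha : Ok n a) (hb : Ok n b) : Ok n (a ++ b) :=
  fun q hq => (List.mem_append.1 hq).elim (ha q) (hb q)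

lemma ok_block {k : Con} {V B n : ℕ} (hk : k.1 < V ∧ k.2.1 < V ∧ k.2.2.1 < V ∧ k.2.2.2 < V)
    (hB : 11 + 2 * V ≤ B) (hn : B + 36 ≤ n) : Ok n (block k B) := by
  intro q hq
  rcases List.mem_cons.1 hq with rfl | hq
  · simp only; omega
  · exact ((((((ok_copy (by omega)).append (ok_copy (by omega))).append
      (ok_copy (by omega))).append (ok_copy (by omega))).append (ok_copy (by omega))).append
      (ok_copy (by omega))) q hq

lemma ok_quads {V : ℕ} {os : List Con} (h : Bd V os) :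
    Ok (10 + 2 * V + 37 * os.length) (quads V os 0) := by
  intro q hq
  obtain ⟨⟨k, s⟩, he, hq⟩ := List.mem_flatMap.1 hq
  have h1 := List.mem_zipIdx_iff_getElem?.1 he
  have h2 := (List.getElem?_eq_some_iff.1 h1).1
  simp only at h2 hq
  exact ok_block (h k (List.mem_of_getElem? h1)) (by omega) (by omega) q hq

lemma esat_append {a b : List Quad} {t : ℕ → ℝ} : ESat (a ++ b) t ↔ ESat a t ∧ ESat b t := by
  simp only [ESat, List.mem_append]
  exact ⟨fun h => ⟨fun c hc => h c (Or.inl hc), fun c hc => h c (Or.inr hc)⟩,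
    fun h c hc => hc.elim (h.1 c) (h.2 c)⟩

lemma esat_congr {n : ℕ} {a : List Quad} {t t' : ℕ → ℝ} (ho : Ok n a) (e : ∀ i ≤ n, t' i = t i)
    (h : ESat a t) : ESat a t' := fun q hq => by
  obtain ⟨h1, h2, h3, h4, h5⟩ := ho q hq
  rw [e _ h5, e _ (by omega : q.1 ≤ n), e _ (by omega : q.2.1 ≤ n), e _ (by omega : q.2.2.1 ≤ n)]
  exact h q hq

lemma copy_sound {x1 x2 y1 y2 m n : ℕ} {t : ℕ → ℝ} (hi : Set.InjOn t (Set.Icc 1 n)) (h1 : 1 ≤ m)
    (h2 : m + 4 ≤ n) (h : ESat (copy x1 x2 y1 y2 m) t) : t x1 * t y2 = t x2 * t y1 := by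
  simp only [ESat, copy, List.mem_cons, List.not_mem_nil, or_false, forall_eq_or_imp,
    forall_eq] at h
  obtain ⟨a1, a2, a3, a4⟩ := h
  have n1 : t (m + 4) - t m ≠ 0 := fun h => by
    have := hi ⟨by omega, h2⟩ ⟨h1, by omega⟩ (sub_eq_zero.1 h)
    omega
  have n2 : t (m + 4) - t (m + 1) ≠ 0 := fun h => by
    have := hi ⟨by omega, h2⟩ ⟨by omega, by omega⟩ (sub_eq_zero.1 h)
    omega
  apply mul_right_cancel₀ (mul_ne_zero n1 n2)
  calc _ = (t x1 * (t (m + 4) - t m)) * (t y2 * (t (m + 4) - t (m + 1))) := by ring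
    _ = (t x2 * (t (m + 4) - t m)) * (t y1 * (t (m + 4) - t (m + 1))) := by
      rw [a1, a2, a3, a4]; ring
    _ = _ := by ring

lemma block_sound {k : Con} {V B n : ℕ} {t : ℕ → ℝ}
    (hk : k.1 < V ∧ k.2.1 < V ∧ k.2.2.1 < V ∧ k.2.2.2 < V) (hB : 11 + 2 * V ≤ B)
    (hn : B + 36 ≤ n) (h0 : ∀ i, 1 ≤ i → i ≤ n → t i ≠ 0) (hi : Set.InjOn t (Set.Icc 1 n))
    (h : ESat (block k B) t) :
    t (11 + 2 * k.1 + 1) / t (11 + 2 * k.1) * (t (11 + 2 * k.2.1 + 1) / t (11 + 2 * k.2.1)) +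
      t (11 + 2 * k.2.2.1 + 1) / t (11 + 2 * k.2.2.1) =
      t (11 + 2 * k.2.2.2 + 1) / t (11 + 2 * k.2.2.2) := by
  have a0 := h _ List.mem_cons_self
  have h' : ESat _ t := fun q hq => h q (List.mem_cons_of_mem _ hq)
  simp only [esat_append] at h' a0
  obtain ⟨⟨⟨⟨⟨c1, c2⟩, c3⟩, c4⟩, c5⟩, c6⟩ := h'
  have a1 := copy_sound hi (by omega) (by omega) c1
  have a2 := copy_sound hi (by omega) (by omega) c2
  have a3 := copy_sound hi (by omega) (by omega) c3
  have a4 := copy_sound hi (by omega) (by omega) c4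
  have a5 := copy_sound hi (by omega) (by omega) c5
  have a6 := copy_sound hi (by omega) (by omega) c6
  have n0 := h0 B (by omega) (by omega)
  have n1 := h0 (B + 1) (by omega) (by omega)
  have n3 := h0 (B + 3) (by omega) (by omega)
  have n4 := h0 (B + 4) (by omega) (by omega)
  have n5 : t (B + 5) - t (B + 4) ≠ 0 := fun h => by
    have := hi ⟨by omega, by omega⟩ ⟨by omega, by omega⟩ (sub_eq_zero.1 h)
    omega
  have b1 : t (B + 3) * (t (B + 5) + t (B + 4)) = t (B + 4) * t (B + 5) := by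
    apply mul_right_cancel₀ n5
    linear_combination t (B + 4) * a0 + (t (B + 4) - t (B + 3)) * a6
  have b2 : t (B + 2) + t (B + 3) = t (B + 4) := by
    apply mul_right_cancel₀ (mul_ne_zero n3 n4)
    linear_combination t (B + 2) * b1 + (t (B + 4) - t (B + 3)) * a5
  have e : ∀ v p q, v < V → t q ≠ 0 → t (11 + 2 * v) * t p = t (11 + 2 * v + 1) * t q →
      t (11 + 2 * v + 1) / t (11 + 2 * v) = t p / t q := fun v p q hv hq h => by
    rw [div_eq_div_iff (h0 _ (by omega) (by omega)) hq]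
    linear_combination -h
  rw [e _ _ _ hk.1 n0 a1, e _ _ _ hk.2.1 n1 a2, e _ _ _ hk.2.2.1 n0 a3, e _ _ _ hk.2.2.2 n0 a4,
    ← b2]
  field_simp

lemma quads_sound {V : ℕ} {os : List Con} (hb : Bd V os) {t : ℕ → ℝ}
    (h0 : ∀ i, 1 ≤ i → i ≤ 10 + 2 * V + 37 * os.length → t i ≠ 0)
    (hi : Set.InjOn t (Set.Icc 1 (10 + 2 * V + 37 * os.length))) (h : ESat (quads V os 0) t) :
    Sat os fun v => t (11 + 2 * v + 1) / t (11 + 2 * v) := by
  intro k hk
  obtain ⟨s, hs, rfl⟩ := List.getElem_of_mem hk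
  exact block_sound (B := 11 + 2 * V + 37 * s) (hb _ hk) (by omega) (by omega) h0 hi
    fun q hq => h q (List.mem_flatMap.2 ⟨(os[s], s),
      List.mem_zipIdx_iff_getElem?.2 (by simp [hs]), hq⟩)

/-- increasing up to `n`, starting at zero -/
def SM (t : ℕ → ℝ) (n : ℕ) : Prop := t 0 = 0 ∧ ∀ i < n, t i < t (i + 1)

lemma SM.lt {t : ℕ → ℝ} {n i j : ℕ} (h : SM t n) (h1 : i < j) (h2 : j ≤ n) : t i < t j := by
  induction j with
  | zero => omega
  | succ j ih =>
    rcases Nat.lt_succ_iff_lt_or_eq.1 h1 with h3 | rfl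
    · exact (ih h3 (by omega)).trans (h.2 j (by omega))
    · exact h.2 i (by omega)

lemma SM.le {t : ℕ → ℝ} {n i j : ℕ} (h : SM t n) (h1 : i ≤ j) (h2 : j ≤ n) : t i ≤ t j := by
  rcases h1.eq_or_lt with rfl | h1
  · exact le_rfl
  · exact (h.lt h1 h2).le

lemma SM.pos {t : ℕ → ℝ} {n i : ℕ} (h : SM t n) (h1 : 0 < i) (h2 : i ≤ n) : 0 < t i :=
  h.1 ▸ h.lt h1 h2

lemma SM.ext {t : ℕ → ℝ} {m : ℕ} (h : SM t m) (k : ℕ) (g : ℕ → ℝ) (h0 : t m < g 0)
    (hg : ∀ j, j + 1 < k → g j < g (j + 1)) :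
    ∃ t' : ℕ → ℝ, (∀ i ≤ m, t' i = t i) ∧ (∀ j, t' (m + 1 + j) = g j) ∧ SM t' (m + k) := by
  refine ⟨fun i => if i ≤ m then t i else g (i - (m + 1)), fun i hi => by simp [hi],
    fun j => by simp [show ¬ m + 1 + j ≤ m by omega], by simp [h.1], fun i hi => ?_⟩
  rcases lt_trichotomy i m with h1 | rfl | h1
  · simp only [if_pos h1.le, if_pos (Nat.succ_le_of_lt h1)]
    exact h.2 i h1
  · simpa using h0
  · simp only [if_neg (not_le.2 h1), if_neg (show ¬ i + 1 ≤ m by omega)]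
    rw [show i + 1 - (m + 1) = i - (m + 1) + 1 by omega]
    exact hg _ (by omega)

lemma copy_ext {t : ℕ → ℝ} {x1 x2 y1 y2 m : ℕ} (h : SM t m) (hx : 0 < x1 ∧ x1 < x2 ∧ x2 ≤ m ∧
    x1 < y1 ∧ y1 ≤ m ∧ y2 ≤ m) (e : t x1 * t y2 = t x2 * t y1) :
    ∃ t' : ℕ → ℝ, (∀ i ≤ m, t' i = t i) ∧ SM t' (m + 5) ∧ ESat (copy x1 x2 y1 y2 (m + 1)) t' := by
  obtain ⟨a1, a2, a3, a4, a5, a6⟩ := hx
  have p1 := h.pos a1 (by omega)
  have p2 := h.lt a2 a3
  have p3 := h.lt a4 a5
  have p4 := h.le a6 le_rfl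
  have p5 := h.le (Nat.zero_le m) le_rfl
  rw [h.1] at p5
  have p6 : t y1 < t y2 := by
    by_contra hc
    nlinarith [not_lt.1 hc]
  set κ := t y1 / t x1 with hκ
  have k1 : 1 < κ := (one_lt_div p1).2 p3
  have k2 : t x1 * κ = t y1 := by rw [hκ]; field_simp
  have k3 : t x2 * κ = t y2 := by
    apply mul_left_cancel₀ p1.ne'
    rw [e, ← k2]; ring
  set β := t m + 1 with hβ
  have k4 : β < β * (1 + κ) / 2 := by nlinarith
  obtain ⟨t', e1, e2, e3⟩ := h.ext 5 (fun j => [β, β * (1 + κ) / 2, β * (1 + κ) - t y2,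
    β * (1 + κ) - t y1, β * (1 + κ)].getD j 0) (by simp [hβ]) (by
      intro j hj
      rcases j with _ | _ | _ | _ | j
      · simpa using k4
      · simp only [List.getD_cons_succ, List.getD_cons_zero, zero_add]; linarith
      · simp only [List.getD_cons_succ, List.getD_cons_zero, zero_add]; linarith
      · simp only [List.getD_cons_succ, List.getD_cons_zero, zero_add]; linarith
      · omega)
  refine ⟨t', e1, e3, ?_⟩
  have e0 := e2 0
  rw [add_zero] at e0
  simp only [ESat, copy, List.mem_cons, List.not_mem_nil, or_false, forall_eq_or_imp, forall_eq,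
    e0, e2, e1 x1 (by omega), e1 x2 a3, e1 y1 a5, e1 y2 a6, List.getD_cons_succ,
    List.getD_cons_zero]
  refine ⟨?_, ?_, ?_, ?_⟩
  · linear_combination β * k2
  · linear_combination β * k3
  · ring
  · ring

lemma block_ext {t X : ℕ → ℝ} {k : Con} {V m : ℕ} (h : SM t m) (hm : 10 + 2 * V ≤ m)
    (hk : k.1 < V ∧ k.2.1 < V ∧ k.2.2.1 < V ∧ k.2.2.2 < V) (hX : ∀ v, 1 < X v)
    (hh : ∀ v < V, t (11 + 2 * v + 1) = X v * t (11 + 2 * v))
    (e : X k.1 * X k.2.1 + X k.2.2.1 = X k.2.2.2) (hl : X k.1 * X k.2.1 < X k.2.2.1) :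
    ∃ t' : ℕ → ℝ, (∀ i ≤ m, t' i = t i) ∧ SM t' (m + 37) ∧ ESat (block k (m + 1)) t' := by
  obtain ⟨k1, k2, k3, k4⟩ := hk
  have p5 := h.le (Nat.zero_le m) le_rfl
  rw [h.1] at p5
  set τ := t m + 1 with hτ
  have hτ0 : 0 < τ := by linarith
  have x1 := hX k.1
  have x2 := hX k.2.1
  have x3 : 1 < X k.1 * X k.2.1 := by nlinarith
  set ρ := X k.2.2.1 / (X k.1 * X k.2.1) with hρ
  have r1 : 1 < ρ := (one_lt_div (by linarith)).2 hl
  have r2 : X k.1 * X k.2.1 * ρ = X k.2.2.1 := by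
    rw [hρ, mul_div_cancel₀ _ (by linarith)]
  have r3 : 0 < τ * X k.2.2.2 := mul_pos hτ0 (by linarith [hX k.2.2.2])
  obtain ⟨t0, e1, e2, s0⟩ := h.ext 7 (fun j => [τ, τ * X k.1, τ * (X k.1 * X k.2.1),
    τ * X k.2.2.1, τ * X k.2.2.2, τ * X k.2.2.2 * ρ, τ * X k.2.2.2 * ρ * ρ].getD j 0)
    (by simp [hτ]) (by
      intro j hj
      rcases j with _ | _ | _ | _ | _ | _ | j
      any_goals simp only [List.getD_cons_succ, List.getD_cons_zero, zero_add]
      · nlinarith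
      · exact mul_lt_mul_of_pos_left (by nlinarith) hτ0
      · exact mul_lt_mul_of_pos_left hl hτ0
      · exact mul_lt_mul_of_pos_left (by linarith) hτ0
      · nlinarith
      · nlinarith [mul_pos r3 (zero_lt_one.trans r1)]
      · omega)
  have q0 := e2 0
  have q1 := e2 1
  have q2 := e2 2
  have q3 := e2 3
  have q4 := e2 4
  have q5 := e2 5
  have q6 := e2 6
  simp only [List.getD_cons_succ, List.getD_cons_zero] at q0 q1 q2 q3 q4 q5 q6
  rw [add_zero] at q0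
  have hh0 : ∀ v < V, t0 (11 + 2 * v + 1) = X v * t0 (11 + 2 * v) := fun v hv => by
    rw [e1 _ (by omega), e1 _ (by omega), hh v hv]
  obtain ⟨t1, f1, s1, c1⟩ := copy_ext (x1 := 11 + 2 * k.1) (x2 := 11 + 2 * k.1 + 1) (y1 := m + 1)
    (y2 := m + 1 + 1) s0 (by omega) (by rw [hh0 _ k1, q0, q1]; ring)
  have g1 : ∀ i ≤ m + 7, t1 i = t0 i := f1
  obtain ⟨t2, f2, s2, c2⟩ := copy_ext (x1 := 11 + 2 * k.2.1) (x2 := 11 + 2 * k.2.1 + 1)
    (y1 := m + 1 + 1) (y2 := m + 1 + 2) s1 (by omega) (by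
      rw [g1 _ (by omega), g1 _ (by omega), g1 _ (by omega), g1 _ (by omega), hh0 _ k2, q1, q2]
      ring)
  have g2 : ∀ i ≤ m + 7, t2 i = t0 i := fun i hi => (f2 i (by omega)).trans (g1 i hi)
  obtain ⟨t3, f3, s3, c3⟩ := copy_ext (x1 := 11 + 2 * k.2.2.1) (x2 := 11 + 2 * k.2.2.1 + 1)
    (y1 := m + 1) (y2 := m + 1 + 3) s2 (by omega) (by
      rw [g2 _ (by omega), g2 _ (by omega), g2 _ (by omega), g2 _ (by omega), hh0 _ k3, q0, q3]
      ring)
  have g3 : ∀ i ≤ m + 7, t3 i = t0 i := fun i hi => (f3 i (by omega)).trans (g2 i hi)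
  obtain ⟨t4, f4, s4, c4⟩ := copy_ext (x1 := 11 + 2 * k.2.2.2) (x2 := 11 + 2 * k.2.2.2 + 1)
    (y1 := m + 1) (y2 := m + 1 + 4) s3 (by omega) (by
      rw [g3 _ (by omega), g3 _ (by omega), g3 _ (by omega), g3 _ (by omega), hh0 _ k4, q0, q4]
      ring)
  have g4 : ∀ i ≤ m + 7, t4 i = t0 i := fun i hi => (f4 i (by omega)).trans (g3 i hi)
  obtain ⟨t5, f5, s5, c5⟩ := copy_ext (x1 := m + 1 + 2) (x2 := m + 1 + 3)
    (y1 := m + 1 + 4) (y2 := m + 1 + 5) s4 (by omega) (by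
      rw [g4 _ (by omega), g4 _ (by omega), g4 _ (by omega), g4 _ (by omega), q2, q3, q4, q5, ← r2]
      ring)
  have g5 : ∀ i ≤ m + 7, t5 i = t0 i := fun i hi => (f5 i (by omega)).trans (g4 i hi)
  obtain ⟨t6, f6, s6, c6⟩ := copy_ext (x1 := m + 1 + 4) (x2 := m + 1 + 5)
    (y1 := m + 1 + 5) (y2 := m + 1 + 6) s5 (by omega) (by
      rw [g5 _ (by omega), g5 _ (by omega), g5 _ (by omega), q4, q5, q6]
      ring)
  have g6 : ∀ i ≤ m + 7, t6 i = t0 i := fun i hi => (f6 i (by omega)).trans (g5 i hi)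
  refine ⟨t6, fun i hi => (g6 i (by omega)).trans (e1 i hi), s6, fun q hq => ?_⟩
  rcases List.mem_cons.1 hq with rfl | hq
  · simp only
    rw [g6 _ (by omega), g6 _ (by omega), g6 _ (by omega), g6 _ (by omega), q3, q4, q5, q6, ← e,
      ← r2]
    ring
  · refine (esat_append.2 ⟨esat_append.2 ⟨esat_append.2 ⟨esat_append.2 ⟨esat_append.2
      ⟨?_, ?_⟩, ?_⟩, ?_⟩, ?_⟩, c6⟩) q hq
    · exact esat_congr (n := m + 12) (ok_copy (by omega)) (fun i hi => by
        rw [f6 i (by omega), f5 i (by omega), f4 i (by omega), f3 i (by omega), f2 i (by omega)]) c1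
    · exact esat_congr (n := m + 17) (ok_copy (by omega)) (fun i hi => by
        rw [f6 i (by omega), f5 i (by omega), f4 i (by omega), f3 i (by omega)]) c2
    · exact esat_congr (n := m + 22) (ok_copy (by omega)) (fun i hi => by
        rw [f6 i (by omega), f5 i (by omega), f4 i (by omega)]) c3
    · exact esat_congr (n := m + 27) (ok_copy (by omega)) (fun i hi => by
        rw [f6 i (by omega), f5 i (by omega)]) c4
    · exact esat_congr (n := m + 32) (ok_copy (by omega)) f6 c5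

lemma quads_ext {X : ℕ → ℝ} {V : ℕ} (hX : ∀ v, 1 < X v) (os : List Con) :
    ∀ (s : ℕ) (t : ℕ → ℝ), Bd V os → Sat os X → (∀ c ∈ os, X c.1 * X c.2.1 < X c.2.2.1) →
      SM t (10 + 2 * V + 37 * s) → (∀ v < V, t (11 + 2 * v + 1) = X v * t (11 + 2 * v)) →
      ∃ t' : ℕ → ℝ, (∀ i ≤ 10 + 2 * V + 37 * s, t' i = t i) ∧
        SM t' (10 + 2 * V + 37 * (s + os.length)) ∧ ESat (quads V os s) t' := by
  induction os with
  | nil => exact fun s t _ _ _ h _ => ⟨t, fun _ _ => rfl, h, fun q hq => by simp [quads] at hq⟩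
  | cons k os ih =>
    intro s t hb hs hl h hh
    obtain ⟨t1, e1, s1, c1⟩ := block_ext h (by omega) (hb k List.mem_cons_self) hX hh
      (hs k List.mem_cons_self) (hl k List.mem_cons_self)
    obtain ⟨t2, e2, s2, c2⟩ := ih (s + 1) t1 (fun c hc => hb c (List.mem_cons_of_mem _ hc))
      (fun c hc => hs c (List.mem_cons_of_mem _ hc)) (fun c hc => hl c (List.mem_cons_of_mem _ hc))
      s1 (fun v hv => by rw [e1 _ (by omega), e1 _ (by omega), hh v hv])
    refine ⟨t2, fun i hi => (e2 i (by omega)).trans (e1 i hi), ?_, ?_⟩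
    · rw [List.length_cons, show s + (os.length + 1) = s + 1 + os.length by omega]
      exact s2
    · rw [quads, List.zipIdx_cons, List.flatMap_cons]
      refine esat_append.2 ⟨?_, c2⟩
      rw [show 10 + 2 * V + 37 * s + 1 = 11 + 2 * V + 37 * s by omega] at c1
      exact esat_congr (ok_block (hb k List.mem_cons_self) (by omega) (by omega)) e2 c1

lemma homes {X : ℕ → ℝ} (hX : ∀ v, 1 < X v) (V : ℕ) :
    ∃ t : ℕ → ℝ, SM t (10 + 2 * V) ∧ ∀ v < V, t (11 + 2 * v + 1) = X v * t (11 + 2 * v) := by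
  induction V with
  | zero => exact ⟨fun i => i, ⟨by simp, fun i _ => by simp⟩, fun v hv => by omega⟩
  | succ V ih =>
    obtain ⟨t, h, hh⟩ := ih
    have p := h.pos (i := 10 + 2 * V) (by omega) le_rfl
    obtain ⟨t', e1, e2, s⟩ := h.ext 2 (fun j => [t (10 + 2 * V) + 1,
      X V * (t (10 + 2 * V) + 1)].getD j 0) (by simp) (by
        intro j hj
        obtain rfl : j = 0 := by omega
        simp only [List.getD_cons_succ, List.getD_cons_zero, zero_add]
        nlinarith [hX V])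
    refine ⟨t', s, fun v hv => ?_⟩
    rcases Nat.lt_succ_iff_lt_or_eq.1 hv with h1 | rfl
    · rw [e1 _ (by omega), e1 _ (by omega), hh v h1]
    · have q0 := e2 0
      have q1 := e2 1
      rw [show 10 + 2 * v + 1 + 0 = 11 + 2 * v by omega] at q0
      rw [show 10 + 2 * v + 1 + 1 = 11 + 2 * v + 1 by omega] at q1
      rw [q0, q1]
      simp

/-- the number of variables of the compiled system -/
noncomputable def NN (L : List Tok) : ℕ := L.length + 5 + (compile L).length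

/-- the number of variables of the shifted system -/
noncomputable def VV (L : List Tok) : ℕ := NN L + 2 + 8 * (compile L).length

section PTs

variable {α : Type} [N487b59b3 α]

@[fun_prop] theorem pt_copy {a b c d m : α → ℕ} (ha : PT a) (hb : PT b) (hc : PT c) (hd : PT d)
    (hm : PT m) : PT fun x => copy (a x) (b x) (c x) (d x) (m x) := by
  unfold copy; fun_prop

@[fun_prop] theorem pt_block {k : α → Con} {B : α → ℕ} (hk : PT k) (hB : PT B) :
    PT fun x => block (k x) (B x) := by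
  unfold block; fun_prop

@[fun_prop] theorem pt_quads {V : α → ℕ} {os : α → List Con} (hV : PT V) (ho : PT os) :
    PT fun x => quads (V x) (os x) 0 := by
  unfold quads; fun_prop

@[fun_prop] theorem pt_gops {N b : α → ℕ} {k : α → Con} (hN : PT N) (hk : PT k) (hb : PT b) :
    PT fun x => gops (N x) (k x) (b x) := by
  unfold gops; fun_prop

@[fun_prop] theorem pt_ops {N : α → ℕ} {cs : α → List Con} (hN : PT N) (hc : PT cs) :
    PT fun x => ops (N x) (cs x) := by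
  unfold ops; fun_prop

end PTs

theorem exists_esys : ∃ (n : List Tok → ℕ) (qs : List Tok → List Quad),
    PT (fun L => un (n L)) ∧ PT qs ∧ ∀ L,
      qs L ≠ [] ∧
      (∀ q ∈ qs L, 10 < q.1 ∧ q.1 < q.2.1 ∧ q.2.1 < q.2.2.1 ∧ q.2.2.1 < q.2.2.2 ∧ q.2.2.2 ≤ n L) ∧
      (∀ t : ℕ → ℝ, (∀ i, 1 ≤ i → i ≤ n L → t i ≠ 0) → Set.InjOn t (Set.Icc 1 (n L)) →
        ESat (qs L) t → ∃ r : ℕ → ℝ, r 0 = 1 ∧ Sat (compile L) r) ∧
      ((∃ r : ℕ → ℝ, r 0 = 1 ∧ Sat (compile L) r) →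
        ∃ t : ℕ → ℝ, t 0 = 0 ∧ StrictMonoOn t (Set.Iic (n L)) ∧ ESat (qs L) t) := by
  have hN : PT NN := by unfold NN; fun_prop
  have hV : PT VV := by unfold VV; fun_prop
  have hO : PT fun L => ops (NN L) (compile L) := pt_ops hN (pt_compile PT.id')
  have hC : PT fun L : List Tok => un (compile L).length := (pt_compile PT.id').un_length
  have hNu : PT fun L => un (NN L) :=
    ((PT.id'.un_length).un_add (PT.const (un 5))).un_add hC
  have hVu : PT fun L => un (VV L) :=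
    (hNu.un_add (PT.const (un 2))).un_add ((PT.const (un 8)).un_mul hC)
  refine ⟨fun L => 10 + 2 * VV L + 37 * (ops (NN L) (compile L)).length,
    fun L => quads (VV L) (ops (NN L) (compile L)) 0, ?_, ?_, fun L => ?_⟩
  · exact ((PT.const (un 10)).un_add ((PT.const (un 2)).un_mul hVu)).un_add
      ((PT.const (un 37)).un_mul hO.un_length)
  · exact pt_quads hV hO
  have hb : Bd (VV L) (ops (NN L) (compile L)) := ops_bd (compile_bd L)
  refine ⟨by simp [quads, ops, block], ok_quads hb, fun t h0 hi h => ?_, ?_⟩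
  · refine ops_sound ?_ (quads_sound hb h0 hi h)
    have : NN L + 1 < VV L := by unfold VV; omega
    exact div_ne_zero (h0 _ (by omega) (by simp only; omega)) (h0 _ (by omega) (by simp only; omega))
  · rintro ⟨r, h0, h⟩
    obtain ⟨X, hX, hs, hl⟩ := ops_complete (N := NN L) (by unfold NN; omega) (compile_bd L) h0 h
    obtain ⟨t, s, hh⟩ := homes hX (VV L)
    obtain ⟨t', -, s', c⟩ := quads_ext hX _ 0 t hb hs hl s hh
    rw [zero_add] at s'
    exact ⟨t', s'.1, fun i _ j hj hij => s'.lt hij hj, c⟩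

end Pool.Agent.MP_26cd3b_lc.H38
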